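import Mathlib
import Pool.Agent.H998.HK.Spec

/-!
# Task J (MP_1266f8_mp): two one-dimensional integral estimates
-/

set_option autoImplicit false

noncomputable section

namespace Pool.Agent.H227.HK
open Pool.Agent.H998.HK
open MeasureTheory Filter Topology Set
open scoped ENNReal NNReal

/-- the elementary integral `∫₀^∞ v^{-p} max(v,c)^{-q} dv` -/
theorem phi_le {p q c : ℝ} (hp1 : p < 1) (hpq : 1 < p + q) (hc : 0 < c) :
    ∫⁻ v in Ioi (0 : ℝ), ENNReal.ofReal (v ^ (-p) * (max v c) ^ (-q)) ≤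
      ENNReal.ofReal ((1 / (1 - p) + 1 / (p + q - 1)) * c ^ (1 - p - q)) := by
  have hsplit : Ioi (0 : ℝ) = Ioc 0 c ∪ Ioi c := (Ioc_union_Ioi_eq_Ioi hc.le).symm
  have h1 : ∫⁻ v in Ioc (0 : ℝ) c, ENNReal.ofReal (v ^ (-p) * (max v c) ^ (-q)) =
      ENNReal.ofReal (1 / (1 - p) * c ^ (1 - p - q)) := by
    have hcongr : ∫⁻ v in Ioc (0 : ℝ) c, ENNReal.ofReal (v ^ (-p) * (max v c) ^ (-q)) =
        ∫⁻ v in Ioc (0 : ℝ) c, ENNReal.ofReal (v ^ (-p) * c ^ (-q)) := by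
      refine setLIntegral_congr_fun measurableSet_Ioc ?_
      intro v hv
      simp only [max_eq_right hv.2]
    rw [hcongr]
    have hint : IntegrableOn (fun v : ℝ => v ^ (-p)) (Ioc 0 c) := by
      have := intervalIntegral.intervalIntegrable_rpow' (a := 0) (b := c) (r := -p) (by linarith)
      rwa [intervalIntegrable_iff_integrableOn_Ioc_of_le hc.le] at this
    rw [← ofReal_integral_eq_lintegral_ofReal (hint.mul_const _)]
    · congr 1
      rw [integral_mul_const, ← intervalIntegral.integral_of_le hc.le,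
        integral_rpow (Or.inl (by linarith))]
      rw [Real.zero_rpow (by linarith), sub_zero]
      have e : c ^ (1 - p - q) = c ^ (-p + 1) * c ^ (-q) := by
        rw [← Real.rpow_add hc]; congr 1; ring
      rw [e]
      have : (-p + 1 : ℝ) = 1 - p := by ring
      rw [this]
      generalize c ^ (1 - p) = A
      generalize c ^ (-q) = B
      ring
    · refine (ae_restrict_mem measurableSet_Ioc).mono ?_
      intro v hv
      exact mul_nonneg (Real.rpow_nonneg hv.1.le _) (Real.rpow_nonneg hc.le _)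
  have h2 : ∫⁻ v in Ioi c, ENNReal.ofReal (v ^ (-p) * (max v c) ^ (-q)) =
      ENNReal.ofReal (1 / (p + q - 1) * c ^ (1 - p - q)) := by
    have hcongr : ∫⁻ v in Ioi c, ENNReal.ofReal (v ^ (-p) * (max v c) ^ (-q)) =
        ∫⁻ v in Ioi c, ENNReal.ofReal (v ^ (-p - q)) := by
      refine setLIntegral_congr_fun measurableSet_Ioi ?_
      intro v hv
      have hv0 : 0 < v := lt_trans hc hv
      simp only [max_eq_left (le_of_lt (show c < v from hv))]
      rw [← Real.rpow_add hv0]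
      congr 2
    rw [hcongr]
    have hint : IntegrableOn (fun v : ℝ => v ^ (-p - q)) (Ioi c) :=
      integrableOn_Ioi_rpow_of_lt (by linarith) hc
    rw [← ofReal_integral_eq_lintegral_ofReal hint]
    · congr 1
      rw [integral_Ioi_rpow_of_lt (by linarith) hc]
      have e : (-p - q + 1 : ℝ) = 1 - p - q := by ring
      rw [e]
      have h3 : (1 - p - q : ℝ) ≠ 0 := by linarith
      have h4 : (p + q - 1 : ℝ) ≠ 0 := by linarith
      field_simp
      ring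
    · refine (ae_restrict_mem measurableSet_Ioi).mono ?_
      intro v hv
      exact Real.rpow_nonneg (le_of_lt (lt_trans hc hv)) _
  rw [hsplit, lintegral_union measurableSet_Ioi (Set.Ioc_disjoint_Ioi_same), h1, h2,
    ← ENNReal.ofReal_add, ← add_mul]
  · have : 0 < 1 - p := by linarith
    have := Real.rpow_nonneg hc.le (1 - p - q)
    positivity
  · have h3 : 0 < p + q - 1 := by linarith
    have := Real.rpow_nonneg hc.le (1 - p - q)
    exact mul_nonneg (by positivity) this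

/-- symmetrised version on the line -/
theorem phi_abs_le {p q c : ℝ} (hp : 0 < p) (hp1 : p < 1) (hpq : 1 < p + q) (hc : 0 < c) (b : ℝ) :
    ∫⁻ u : ℝ, ENNReal.ofReal (|u - b| ^ (-p) * (max |u - b| c) ^ (-q)) ≤
      ENNReal.ofReal (2 * (1 / (1 - p) + 1 / (p + q - 1)) * c ^ (1 - p - q)) := by
  rw [lintegral_sub_right_eq_self (fun v : ℝ => ENNReal.ofReal (|v| ^ (-p) * (max |v| c) ^ (-q))) b]
  have h0 := phi_le hp1 hpq hc
  set A : ℝ := (1 / (1 - p) + 1 / (p + q - 1)) * c ^ (1 - p - q) with hA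
  have hAn : 0 ≤ A := by
    have h3 : 0 < p + q - 1 := by linarith
    have h4 : 0 < 1 - p := by linarith
    have := Real.rpow_nonneg hc.le (1 - p - q)
    positivity
  have hcompl : (univ : Set ℝ) = Ioi 0 ∪ Iic 0 := by
    rw [union_comm, Iic_union_Ioi]
  have hpos : ∫⁻ v in Ioi (0 : ℝ), ENNReal.ofReal (|v| ^ (-p) * (max |v| c) ^ (-q)) ≤
      ENNReal.ofReal A := by
    refine le_trans (le_of_eq ?_) h0
    refine setLIntegral_congr_fun measurableSet_Ioi ?_
    intro v hv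
    simp only [abs_of_pos (show (0 : ℝ) < v from hv)]
  have hneg : ∫⁻ v in Iic (0 : ℝ), ENNReal.ofReal (|v| ^ (-p) * (max |v| c) ^ (-q)) ≤
      ENNReal.ofReal A := by
    have h1 : ∫⁻ v in Iic (0 : ℝ), ENNReal.ofReal (|v| ^ (-p) * (max |v| c) ^ (-q)) =
        ∫⁻ v in Iio (0 : ℝ), ENNReal.ofReal (|v| ^ (-p) * (max |v| c) ^ (-q)) :=
      setLIntegral_congr Iio_ae_eq_Iic.symm
    rw [h1]
    refine le_trans (le_of_eq ?_) hpos
    have hmp := Measure.measurePreserving_neg (volume : Measure ℝ)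
    have := hmp.setLIntegral_comp_preimage_emb (MeasurableEquiv.neg ℝ).measurableEmbedding
      (fun v : ℝ => ENNReal.ofReal (|v| ^ (-p) * (max |v| c) ^ (-q))) (Ioi 0)
    rw [← this]
    have h2 : (Neg.neg ⁻¹' Ioi (0 : ℝ)) = Iio 0 := by ext v; simp
    rw [h2]
    simp only [abs_neg]
  rw [← setLIntegral_univ, hcompl]
  refine le_trans (lintegral_union_le _ _ _) ?_
  refine le_trans (add_le_add hpos hneg) ?_
  rw [← ENNReal.ofReal_add hAn hAn]
  apply ENNReal.ofReal_le_ofReal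
  rw [hA]
  linarith

/-- the convolution type integral `∫₀^∞ u^{-p} |u-b|^{-q} du ≤ C b^{1-p-q}` -/
theorem conv_le {p q : ℝ} (hp : 0 < p) (hp1 : p < 1) (hq : 0 < q) (hq1 : q < 1) (hpq : 1 < p + q) :
    ∃ C : ℝ, 0 < C ∧ ∀ b : ℝ, 0 < b →
      ∫⁻ u in Ioi (0 : ℝ), ENNReal.ofReal (u ^ (-p) * |u - b| ^ (-q)) ≤
        ENNReal.ofReal (C * b ^ (1 - p - q)) := by
  have h4 : 0 < 1 - p := by linarith
  have h5 : 0 < 1 - q := by linarith
  have h3 : 0 < p + q - 1 := by linarith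
  have h3' : 0 < q + p - 1 := by linarith
  refine ⟨((1 / (1 - p) + 1 / (p + q - 1)) + 2 * (1 / (1 - q) + 1 / (q + p - 1))) *
    (1 / 2) ^ (1 - p - q), by positivity, ?_⟩
  intro b hb
  have hb2 : 0 < b / 2 := by positivity
  have hpt : ∀ u ∈ Ioi (0 : ℝ), ENNReal.ofReal (u ^ (-p) * |u - b| ^ (-q)) ≤
      ENNReal.ofReal (u ^ (-p) * (max u (b / 2)) ^ (-q)) +
      ENNReal.ofReal (|u - b| ^ (-q) * (max |u - b| (b / 2)) ^ (-p)) := by
    intro u hu
    have hu : (0 : ℝ) < u := hu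
    have hn1 : 0 ≤ u ^ (-p) * (max u (b / 2)) ^ (-q) := by positivity
    have hn2 : 0 ≤ |u - b| ^ (-q) * (max |u - b| (b / 2)) ^ (-p) := by positivity
    rw [← ENNReal.ofReal_add hn1 hn2]
    apply ENNReal.ofReal_le_ofReal
    rcases le_total u |u - b| with h | h
    · have hb' : b / 2 ≤ |u - b| := by
        have := neg_abs_le (u - b)
        linarith
      have : |u - b| ^ (-q) ≤ (max u (b / 2)) ^ (-q) := by
        apply Real.rpow_le_rpow_of_nonpos (by positivity) (max_le h hb') (by linarith)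
      have := mul_le_mul_of_nonneg_left this (Real.rpow_nonneg hu.le (-p))
      linarith
    · have hb' : b / 2 ≤ u := by
        have := neg_abs_le (u - b)
        linarith
      have : u ^ (-p) ≤ (max |u - b| (b / 2)) ^ (-p) := by
        apply Real.rpow_le_rpow_of_nonpos (by positivity) (max_le h hb') (by linarith)
      have := mul_le_mul_of_nonneg_right this (Real.rpow_nonneg (abs_nonneg (u - b)) (-q))
      linarith [mul_comm (max |u - b| (b / 2) ^ (-p)) (|u - b| ^ (-q))]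
  refine le_trans (setLIntegral_mono' measurableSet_Ioi hpt) ?_
  rw [lintegral_add_left (by fun_prop)]
  have hA := phi_le hp1 hpq hb2
  have hB : ∫⁻ u in Ioi (0 : ℝ), ENNReal.ofReal (|u - b| ^ (-q) * (max |u - b| (b / 2)) ^ (-p)) ≤
      ENNReal.ofReal (2 * (1 / (1 - q) + 1 / (q + p - 1)) * (b / 2) ^ (1 - q - p)) :=
    le_trans (setLIntegral_le_lintegral _ _) (phi_abs_le hq hq1 (by linarith) hb2 b)
  refine le_trans (add_le_add hA hB) ?_
  have hr := Real.rpow_nonneg hb2.le (1 - p - q)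
  have hr' := Real.rpow_nonneg hb2.le (1 - q - p)
  rw [← ENNReal.ofReal_add (by positivity) (by positivity)]
  apply ENNReal.ofReal_le_ofReal
  have e1 : (1 - q - p : ℝ) = 1 - p - q := by ring
  rw [e1, show b / 2 = (1 / 2) * b by ring, Real.mul_rpow (by norm_num) hb.le]
  apply le_of_eq
  ring

/-- reflected version: `∫₀² (2-u)^{-p} |u-b|^{-q} du ≤ ∫₀^∞ v^{-p} |v-(2-b)|^{-q} dv` -/
theorem reflect_le (p q b : ℝ) :
    ∫⁻ u in Ioo (0 : ℝ) 2, ENNReal.ofReal ((2 - u) ^ (-p) * |u - b| ^ (-q)) ≤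
      ∫⁻ v in Ioi (0 : ℝ), ENNReal.ofReal (v ^ (-p) * |v - (2 - b)| ^ (-q)) := by
  have h1 : ∫⁻ v in Ioi (0 : ℝ), ENNReal.ofReal (v ^ (-p) * |v - (2 - b)| ^ (-q)) =
      ∫⁻ u : ℝ, (Ioi (0 : ℝ)).indicator
        (fun v => ENNReal.ofReal (v ^ (-p) * |v - (2 - b)| ^ (-q))) (2 - u) := by
    rw [lintegral_sub_left_eq_self
      ((Ioi (0 : ℝ)).indicator (fun v => ENNReal.ofReal (v ^ (-p) * |v - (2 - b)| ^ (-q)))) 2,
      lintegral_indicator measurableSet_Ioi]
  rw [h1, ← lintegral_indicator measurableSet_Ioo]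
  apply lintegral_mono
  intro u
  by_cases hu : u ∈ Ioo (0 : ℝ) 2
  · have h2 : (2 - u) ∈ Ioi (0 : ℝ) := by
      have := hu.2
      simp only [mem_Ioi]; linarith
    rw [indicator_of_mem hu]
    simp only
    rw [indicator_of_mem h2]
    apply le_of_eq
    have : |2 - u - (2 - b)| = |u - b| := by
      rw [show 2 - u - (2 - b) = -(u - b) by ring, abs_neg]
    rw [this]
  · rw [indicator_of_notMem hu]
    exact zero_le

/-- assembling: an integrand bounded by `K (u^{-p} + (2-u)^{-p}) |u-b|^{-q}` -/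
theorem assemble {p q : ℝ} (hp : 0 < p) (hp1 : p < 1) (hq : 0 < q) (hq1 : q < 1)
    (hpq : 1 < p + q) :
    ∃ C : ℝ, 0 < C ∧ ∀ (b K : ℝ) (f : ℝ → ℝ), 0 < b → b < 2 → 0 ≤ K →
      (∀ u, 0 < u → u < 2 → f u ≤ K * (u ^ (-p) * |u - b| ^ (-q) + (2 - u) ^ (-p) * |u - b| ^ (-q))) →
      ∫⁻ u in Ioo (0 : ℝ) 2, ENNReal.ofReal (f u) ≤
        ENNReal.ofReal (C * K * (b ^ (1 - p - q) + (2 - b) ^ (1 - p - q))) := by
  obtain ⟨C, hC, h⟩ := conv_le hp hp1 hq hq1 hpq
  refine ⟨C, hC, ?_⟩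
  intro b K f hb hb2 hK hf
  have hb2' : 0 < 2 - b := by linarith
  have h1 : ∀ u ∈ Ioo (0 : ℝ) 2, ENNReal.ofReal (f u) ≤
      ENNReal.ofReal K * (ENNReal.ofReal (u ^ (-p) * |u - b| ^ (-q)) +
        ENNReal.ofReal ((2 - u) ^ (-p) * |u - b| ^ (-q))) := by
    intro u hu
    have hu1 : 0 < u := hu.1
    have hu2 : 0 < 2 - u := by linarith [hu.2]
    rw [← ENNReal.ofReal_add (by positivity) (by positivity), ← ENNReal.ofReal_mul hK]
    exact ENNReal.ofReal_le_ofReal (hf u hu.1 hu.2)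
  refine le_trans (setLIntegral_mono' measurableSet_Ioo h1) ?_
  rw [lintegral_const_mul' _ _ ENNReal.ofReal_ne_top, lintegral_add_left (by fun_prop)]
  have h2 : ∫⁻ u in Ioo (0 : ℝ) 2, ENNReal.ofReal (u ^ (-p) * |u - b| ^ (-q)) ≤
      ENNReal.ofReal (C * b ^ (1 - p - q)) :=
    le_trans (lintegral_mono_set Ioo_subset_Ioi_self) (h b hb)
  have h3 : ∫⁻ u in Ioo (0 : ℝ) 2, ENNReal.ofReal ((2 - u) ^ (-p) * |u - b| ^ (-q)) ≤
      ENNReal.ofReal (C * (2 - b) ^ (1 - p - q)) :=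
    le_trans (reflect_le p q b) (h (2 - b) hb2')
  refine le_trans (mul_le_mul_right (add_le_add h2 h3) _) ?_
  have hr1 := Real.rpow_nonneg hb.le (1 - p - q)
  have hr2 := Real.rpow_nonneg hb2'.le (1 - p - q)
  rw [← ENNReal.ofReal_add (by positivity) (by positivity), ← ENNReal.ofReal_mul hK]
  apply ENNReal.ofReal_le_ofReal
  apply le_of_eq
  ring

/-- `(T+2u)^{-1/2} ≤ 2 T^{-s} (1+T)^{-t} u^{-t}` for `s + t = 1/2` -/
theorem T_bound {T u s t : ℝ} (hT : 0 < T) (hu : 0 < u) (hu2 : u < 2) (hs : 0 < s) (ht : 0 < t)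
    (hst : s + t = 1 / 2) :
    1 / √(T + 2 * u) ≤ 2 * (T ^ (-s) * (1 + T) ^ (-t)) * u ^ (-t) := by
  have hTu : 0 < T + 2 * u := by positivity
  have h1 : 1 / √(T + 2 * u) = (T + 2 * u) ^ (-s) * (T + 2 * u) ^ (-t) := by
    rw [Real.sqrt_eq_rpow, one_div, ← Real.rpow_neg hTu.le, ← Real.rpow_add hTu]
    congr 1
    linarith
  rw [h1]
  have h2 : (T + 2 * u) ^ (-s) ≤ T ^ (-s) :=
    Real.rpow_le_rpow_of_nonpos hT (by linarith) (by linarith)
  have h3 : (T + 2 * u) ^ (-t) ≤ ((1 + T) * u * (1 / 2)) ^ (-t) := by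
    apply Real.rpow_le_rpow_of_nonpos (by positivity) _ (by linarith)
    nlinarith
  have h4 : ((1 + T) * u * (1 / 2)) ^ (-t) = (1 + T) ^ (-t) * u ^ (-t) * (1 / 2) ^ (-t) := by
    rw [Real.mul_rpow (by positivity) (by norm_num), Real.mul_rpow (by positivity) hu.le]
  have h5 : (1 / 2 : ℝ) ^ (-t) ≤ 2 := by
    rw [one_div, Real.inv_rpow (by norm_num), ← Real.rpow_neg (by norm_num), neg_neg]
    calc (2 : ℝ) ^ t ≤ 2 ^ (1 : ℝ) := Real.rpow_le_rpow_of_exponent_le (by norm_num) (by linarith)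
      _ = 2 := Real.rpow_one 2
  have hu' := Real.rpow_nonneg hu.le (-t)
  have hT' := Real.rpow_nonneg (by positivity : (0 : ℝ) ≤ 1 + T) (-t)
  have hTs := Real.rpow_nonneg hT.le (-s)
  calc (T + 2 * u) ^ (-s) * (T + 2 * u) ^ (-t)
      ≤ T ^ (-s) * ((1 + T) ^ (-t) * u ^ (-t) * (1 / 2) ^ (-t)) := by
        apply mul_le_mul h2 (h3.trans (le_of_eq h4)) (Real.rpow_nonneg hTu.le _) hTs
    _ ≤ T ^ (-s) * ((1 + T) ^ (-t) * u ^ (-t) * 2) := by
        apply mul_le_mul_of_nonneg_left _ hTs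
        apply mul_le_mul_of_nonneg_left h5 (by positivity)
    _ = 2 * (T ^ (-s) * (1 + T) ^ (-t)) * u ^ (-t) := by ring

theorem inv_sqrt {x : ℝ} (hx : 0 ≤ x) : 1 / √x = x ^ (-(1 / 2 : ℝ)) := by
  rw [Real.sqrt_eq_rpow, one_div, ← Real.rpow_neg hx]

theorem t_J : S_J := by
  obtain ⟨C0, hC0, h0⟩ := assemble (p := 5 / 6) (q := 1 / 2) (by norm_num) (by norm_num)
    (by norm_num) (by norm_num) (by norm_num)
  obtain ⟨C1, hC1, h1⟩ := assemble (p := 11 / 12) (q := 3 / 4) (by norm_num) (by norm_num)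
    (by norm_num) (by norm_num) (by norm_num)
  refine ⟨2 * C0 + 2 * C1, by positivity, ?_⟩
  intro T b hT hb hb2
  have hb2' : 0 < 2 - b := by linarith
  have hT1 : (0 : ℝ) < 1 + T := by positivity
  constructor
  · have := h0 b (2 * (T ^ (-(1 / 6 : ℝ)) * (1 + T) ^ (-(1 / 3 : ℝ))))
      (fun u => 1 / (√(u * (2 - u)) * √(T + 2 * u) * √(2 * |u - b|))) hb hb2 (by positivity) ?_
    · refine le_trans this (ENNReal.ofReal_le_ofReal ?_)
      have e : (1 - 5 / 6 - 1 / 2 : ℝ) = -(1 / 3) := by norm_num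
      rw [e]
      have hX : 0 ≤ T ^ (-(1 / 6 : ℝ)) * (1 + T) ^ (-(1 / 3 : ℝ)) *
        (b ^ (-(1 / 3 : ℝ)) + (2 - b) ^ (-(1 / 3 : ℝ))) := by positivity
      nlinarith [mul_nonneg hC1.le hX, mul_nonneg hC0.le hX]
    · intro u hu hu2
      have hu2' : 0 < 2 - u := by linarith
      have hR : 0 ≤ 2 * (T ^ (-(1 / 6 : ℝ)) * (1 + T) ^ (-(1 / 3 : ℝ))) *
          (u ^ (-(5 / 6 : ℝ)) * |u - b| ^ (-(1 / 2 : ℝ)) +
            (2 - u) ^ (-(5 / 6 : ℝ)) * |u - b| ^ (-(1 / 2 : ℝ))) := by positivity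
      by_cases hub : u = b
      · subst hub
        simp only [sub_self, abs_zero, mul_zero, Real.sqrt_zero, div_zero]
        simp
      have hub' : 0 < |u - b| := abs_pos.2 (sub_ne_zero.2 hub)
      have hTb := T_bound (s := 1 / 6) (t := 1 / 3) hT hu hu2 (by norm_num) (by norm_num)
        (by norm_num)
      have e1 : 1 / (√(u * (2 - u)) * √(T + 2 * u) * √(2 * |u - b|)) =
          (1 / √u) * (1 / √(2 - u)) * (1 / √(T + 2 * u)) * (1 / √(2 * |u - b|)) := by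
        rw [Real.sqrt_mul hu.le]
        field_simp
      have e2 : 1 / √(2 * |u - b|) ≤ |u - b| ^ (-(1 / 2 : ℝ)) := by
        rw [← inv_sqrt hub'.le]
        apply one_div_le_one_div_of_le (Real.sqrt_pos.2 hub')
        apply Real.sqrt_le_sqrt
        linarith
      have e3 : (1 / √u) * (1 / √(2 - u)) * u ^ (-(1 / 3 : ℝ)) ≤
          u ^ (-(5 / 6 : ℝ)) + (2 - u) ^ (-(5 / 6 : ℝ)) := by
        rw [inv_sqrt hu.le, inv_sqrt hu2'.le]
        have e4 : u ^ (-(1 / 2 : ℝ)) * (2 - u) ^ (-(1 / 2 : ℝ)) * u ^ (-(1 / 3 : ℝ)) =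
            u ^ (-(5 / 6 : ℝ)) * (2 - u) ^ (-(1 / 2 : ℝ)) := by
          have : (-(5 / 6 : ℝ)) = -(1 / 2) + -(1 / 3) := by norm_num
          rw [this, Real.rpow_add hu]; ring
        rw [e4]
        have hA := Real.rpow_nonneg hu.le (-(5 / 6 : ℝ))
        have hB := Real.rpow_nonneg hu2'.le (-(5 / 6 : ℝ))
        rcases le_total u 1 with h | h
        · have : (2 - u) ^ (-(1 / 2 : ℝ)) ≤ 1 :=
            Real.rpow_le_one_of_one_le_of_nonpos (by linarith) (by norm_num)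
          nlinarith
        · have h6 : u ^ (-(5 / 6 : ℝ)) ≤ 1 :=
            Real.rpow_le_one_of_one_le_of_nonpos (by linarith) (by norm_num)
          have h7 : (2 - u) ^ (-(1 / 2 : ℝ)) ≤ (2 - u) ^ (-(5 / 6 : ℝ)) :=
            Real.rpow_le_rpow_of_exponent_ge hu2' (by linarith) (by norm_num)
          have h8 := Real.rpow_nonneg hu2'.le (-(1 / 2 : ℝ))
          nlinarith
      rw [e1]
      have hs1 : 0 ≤ (1 / √u) * (1 / √(2 - u)) := by positivity
      calc (1 / √u) * (1 / √(2 - u)) * (1 / √(T + 2 * u)) * (1 / √(2 * |u - b|))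
          ≤ (1 / √u) * (1 / √(2 - u)) * (2 * (T ^ (-(1 / 6 : ℝ)) * (1 + T) ^ (-(1 / 3 : ℝ))) *
              u ^ (-(1 / 3 : ℝ))) * |u - b| ^ (-(1 / 2 : ℝ)) := by
            apply mul_le_mul _ e2 (by positivity) (by positivity)
            exact mul_le_mul_of_nonneg_left hTb hs1
        _ = 2 * (T ^ (-(1 / 6 : ℝ)) * (1 + T) ^ (-(1 / 3 : ℝ))) *
              (((1 / √u) * (1 / √(2 - u)) * u ^ (-(1 / 3 : ℝ))) * |u - b| ^ (-(1 / 2 : ℝ))) := by
            ring
        _ ≤ 2 * (T ^ (-(1 / 6 : ℝ)) * (1 + T) ^ (-(1 / 3 : ℝ))) *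
              ((u ^ (-(5 / 6 : ℝ)) + (2 - u) ^ (-(5 / 6 : ℝ))) * |u - b| ^ (-(1 / 2 : ℝ))) := by
            apply mul_le_mul_of_nonneg_left _ (by positivity)
            exact mul_le_mul_of_nonneg_right e3 (by positivity)
        _ = _ := by ring
  · have := h1 b (2 * (T ^ (-(1 / 3 : ℝ)) * (1 + T) ^ (-(1 / 6 : ℝ))))
      (fun u => 1 / (√(u * (2 - u)) * √(T + 2 * u) * √(2 * |u - b|)) *
        ((if u < b then 2 - u else u) * |u - b|) ^ (-(1 / 4 : ℝ))) hb hb2 (by positivity) ?_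
    · refine le_trans this (ENNReal.ofReal_le_ofReal ?_)
      have e : (1 - 11 / 12 - 3 / 4 : ℝ) = -(2 / 3) := by norm_num
      rw [e]
      have hX : 0 ≤ T ^ (-(1 / 3 : ℝ)) * (1 + T) ^ (-(1 / 6 : ℝ)) *
        (b ^ (-(2 / 3 : ℝ)) + (2 - b) ^ (-(2 / 3 : ℝ))) := by positivity
      nlinarith [mul_nonneg hC1.le hX, mul_nonneg hC0.le hX]
    · intro u hu hu2
      have hu2' : 0 < 2 - u := by linarith
      have hR : 0 ≤ 2 * (T ^ (-(1 / 3 : ℝ)) * (1 + T) ^ (-(1 / 6 : ℝ))) *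
          (u ^ (-(11 / 12 : ℝ)) * |u - b| ^ (-(3 / 4 : ℝ)) +
            (2 - u) ^ (-(11 / 12 : ℝ)) * |u - b| ^ (-(3 / 4 : ℝ))) := by positivity
      by_cases hub : u = b
      · subst hub
        simp only [sub_self, abs_zero, mul_zero, Real.sqrt_zero, div_zero, zero_mul]
        simp
      have hub' : 0 < |u - b| := abs_pos.2 (sub_ne_zero.2 hub)
      have hTb := T_bound (s := 1 / 3) (t := 1 / 6) hT hu hu2 (by norm_num) (by norm_num)
        (by norm_num)
      have e1 : 1 / (√(u * (2 - u)) * √(T + 2 * u) * √(2 * |u - b|)) =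
          (1 / √u) * (1 / √(2 - u)) * (1 / √(T + 2 * u)) * (1 / √(2 * |u - b|)) := by
        rw [Real.sqrt_mul hu.le]
        field_simp
      have e2 : 1 / √(2 * |u - b|) ≤ |u - b| ^ (-(1 / 2 : ℝ)) := by
        rw [← inv_sqrt hub'.le]
        apply one_div_le_one_div_of_le (Real.sqrt_pos.2 hub')
        apply Real.sqrt_le_sqrt
        linarith
      set w : ℝ := if u < b then 2 - u else u with hw
      have hwpos : 0 < w := by rw [hw]; split_ifs <;> assumption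
      have e5 : (w * |u - b|) ^ (-(1 / 4 : ℝ)) = w ^ (-(1 / 4 : ℝ)) * |u - b| ^ (-(1 / 4 : ℝ)) :=
        Real.mul_rpow hwpos.le hub'.le
      have e6 : |u - b| ^ (-(1 / 2 : ℝ)) * |u - b| ^ (-(1 / 4 : ℝ)) = |u - b| ^ (-(3 / 4 : ℝ)) := by
        rw [← Real.rpow_add hub']; norm_num
      have e3 : (1 / √u) * (1 / √(2 - u)) * u ^ (-(1 / 6 : ℝ)) * w ^ (-(1 / 4 : ℝ)) ≤
          u ^ (-(11 / 12 : ℝ)) + (2 - u) ^ (-(11 / 12 : ℝ)) := by
        rw [inv_sqrt hu.le, inv_sqrt hu2'.le]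
        have e4 : u ^ (-(1 / 2 : ℝ)) * (2 - u) ^ (-(1 / 2 : ℝ)) * u ^ (-(1 / 6 : ℝ)) =
            u ^ (-(2 / 3 : ℝ)) * (2 - u) ^ (-(1 / 2 : ℝ)) := by
          have : (-(2 / 3 : ℝ)) = -(1 / 2) + -(1 / 6) := by norm_num
          rw [this, Real.rpow_add hu]; ring
        rw [e4]
        have hA := Real.rpow_nonneg hu.le (-(11 / 12 : ℝ))
        have hB := Real.rpow_nonneg hu2'.le (-(11 / 12 : ℝ))
        rcases le_total u 1 with h | h
        · refine le_trans ?_ (le_add_of_nonneg_right hB)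
          have h7 : (2 - u) ^ (-(1 / 2 : ℝ)) ≤ 1 :=
            Real.rpow_le_one_of_one_le_of_nonpos (by linarith) (by norm_num)
          have hw1 : w ^ (-(1 / 4 : ℝ)) ≤ u ^ (-(1 / 4 : ℝ)) := by
            apply Real.rpow_le_rpow_of_nonpos hu _ (by norm_num)
            rw [hw]; split_ifs <;> linarith
          have e7 : u ^ (-(11 / 12 : ℝ)) = u ^ (-(2 / 3 : ℝ)) * u ^ (-(1 / 4 : ℝ)) := by
            rw [← Real.rpow_add hu]; norm_num
          rw [e7]
          have h8 := Real.rpow_nonneg hu.le (-(2 / 3 : ℝ))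
          have h9 : u ^ (-(2 / 3 : ℝ)) * (2 - u) ^ (-(1 / 2 : ℝ)) ≤ u ^ (-(2 / 3 : ℝ)) := by
            nlinarith
          exact mul_le_mul h9 hw1 (Real.rpow_nonneg hwpos.le _) h8
        · refine le_trans ?_ (le_add_of_nonneg_left hA)
          have h6 : u ^ (-(2 / 3 : ℝ)) ≤ 1 :=
            Real.rpow_le_one_of_one_le_of_nonpos (by linarith) (by norm_num)
          have h7 : (2 - u) ^ (-(1 / 2 : ℝ)) ≤ (2 - u) ^ (-(2 / 3 : ℝ)) :=
            Real.rpow_le_rpow_of_exponent_ge hu2' (by linarith) (by norm_num)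
          have hw1 : w ^ (-(1 / 4 : ℝ)) ≤ (2 - u) ^ (-(1 / 4 : ℝ)) := by
            apply Real.rpow_le_rpow_of_nonpos hu2' _ (by norm_num)
            rw [hw]; split_ifs <;> linarith
          have e7 : (2 - u) ^ (-(11 / 12 : ℝ)) =
              (2 - u) ^ (-(2 / 3 : ℝ)) * (2 - u) ^ (-(1 / 4 : ℝ)) := by
            rw [← Real.rpow_add hu2']; norm_num
          rw [e7]
          have h8 := Real.rpow_nonneg hu2'.le (-(1 / 2 : ℝ))
          have h9 : u ^ (-(2 / 3 : ℝ)) * (2 - u) ^ (-(1 / 2 : ℝ)) ≤ (2 - u) ^ (-(2 / 3 : ℝ)) := by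
            have := mul_le_mul h6 h7 h8 (by norm_num)
            linarith
          exact mul_le_mul h9 hw1 (Real.rpow_nonneg hwpos.le _) (Real.rpow_nonneg hu2'.le _)
      rw [e1, e5]
      have hs1 : 0 ≤ (1 / √u) * (1 / √(2 - u)) := by positivity
      have hw0 := Real.rpow_nonneg hwpos.le (-(1 / 4 : ℝ))
      calc (1 / √u) * (1 / √(2 - u)) * (1 / √(T + 2 * u)) * (1 / √(2 * |u - b|)) *
            (w ^ (-(1 / 4 : ℝ)) * |u - b| ^ (-(1 / 4 : ℝ)))
          ≤ (1 / √u) * (1 / √(2 - u)) * (2 * (T ^ (-(1 / 3 : ℝ)) * (1 + T) ^ (-(1 / 6 : ℝ))) *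
              u ^ (-(1 / 6 : ℝ))) * |u - b| ^ (-(1 / 2 : ℝ)) *
              (w ^ (-(1 / 4 : ℝ)) * |u - b| ^ (-(1 / 4 : ℝ))) := by
            apply mul_le_mul_of_nonneg_right _ (by positivity)
            apply mul_le_mul _ e2 (by positivity) (by positivity)
            exact mul_le_mul_of_nonneg_left hTb hs1
        _ = 2 * (T ^ (-(1 / 3 : ℝ)) * (1 + T) ^ (-(1 / 6 : ℝ))) *
              (((1 / √u) * (1 / √(2 - u)) * u ^ (-(1 / 6 : ℝ)) * w ^ (-(1 / 4 : ℝ))) *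
                (|u - b| ^ (-(1 / 2 : ℝ)) * |u - b| ^ (-(1 / 4 : ℝ)))) := by
            ring
        _ ≤ 2 * (T ^ (-(1 / 3 : ℝ)) * (1 + T) ^ (-(1 / 6 : ℝ))) *
              ((u ^ (-(11 / 12 : ℝ)) + (2 - u) ^ (-(11 / 12 : ℝ))) * |u - b| ^ (-(3 / 4 : ℝ))) := by
            rw [e6]
            apply mul_le_mul_of_nonneg_left _ (by positivity)
            exact mul_le_mul_of_nonneg_right e3 (by positivity)
        _ = _ := by ring

end Pool.Agent.H227.HK
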